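import Pool.Agent.Helper57.SL.Stmts
import Pool.Agent.Helper78.SI.WI

/-!
# SL, row WQ: the weighted integral of one defect (from helper78's WI)
-/

set_option autoImplicit false

namespace Pool.Agent.Helper13.SL

open MeasureTheory Set Filter Topology Pool.Agent.Helper57.SL
open Pool.Agent.Helper57.QZ (Pr)
open Pool.Agent.Helper57.SI (fej fc gc Kk zz ww)

theorem st_WQ (h1 : Pool.Agent.Helper57.SI.ST_OSC) (h2 : Pool.Agent.Helper57.SI.ST_FJ1) :
    ST_WQ := by
  intro z K α u H hK hH
  refine ⟨(Pool.Agent.Helper78.SI.st_WI h1 h2 z K α u H hK hH).1, fun q => ?_⟩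
  refine (Pool.Agent.Helper78.SI.wi_one h1 h2 hK α u H hH q).trans (le_of_eq ?_)
  ring

end Pool.Agent.Helper13.SL
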